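import Pool.Agent.TH145.GC.Vec

/-!
Vector fields that are dual to the coefficients of the monomials in two variables.
-/

set_option autoImplicit false

open MvPolynomial Pool.Agent.TH145.GH Pool.Agent.TH145.GC

namespace Pool.Agent.TH145.GD

/-- The exponent of the monomial `x_c ^ (d - j) x_i ^ j`. -/
noncomputable def sM {n : ℕ} (c : Fin (n + 1)) (d : ℕ) (i : Fin (n + 1)) (j : ℕ) :
    Fin (n + 1) →₀ ℕ := Finsupp.single c (d - j) + Finsupp.single i j

/-- The exponents of the monomials `x_c ^ (d - j) x_i ^ j`. -/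
def St {n : ℕ} (c : Fin (n + 1)) (d : ℕ) : Set (Fin (n + 1) →₀ ℕ) :=
  {I | ∃ i j, j ≤ d ∧ I = sM c d i j}

section

variable {n : ℕ} {c : Fin (n + 1)} {d : ℕ}

theorem sM_zero (i : Fin (n + 1)) : sM c d i 0 = Finsupp.single c d := by
  unfold sM
  rw [Finsupp.single_zero, add_zero, Nat.sub_zero]

theorem sM_top (i : Fin (n + 1)) : sM c d i d = Finsupp.single i d := by
  unfold sM
  rw [Nat.sub_self, Finsupp.single_zero, zero_add]

theorem sM_mem {i : Fin (n + 1)} {j : ℕ} (hj : j ≤ d) : sM c d i j ∈ St c d := ⟨i, j, hj, rfl⟩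

theorem single_mem (i : Fin (n + 1)) : Finsupp.single i d ∈ St c d :=
  ⟨i, d, le_rfl, (sM_top i).symm⟩

theorem deg_St {I : Fin (n + 1) →₀ ℕ} (hI : I ∈ St c d) : I.degree = d := by
  obtain ⟨i, j, hj, rfl⟩ := hI
  unfold sM
  rw [map_add, Finsupp.degree_single, Finsupp.degree_single]
  omega

theorem finite_St (c : Fin (n + 1)) (d : ℕ) : (St c d).Finite := by
  refine (Finsupp.finite_of_degree_le d).subset fun I hI => ?_
  exact (deg_St hI).le

end

variable {K : Type} [Field K] {n : ℕ} {A : Type}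

/-- The indices of the tangent vector fields. -/
abbrev Ti (n : ℕ) (A : Type) := A × Fin (n + 1) × ℕ

/-- The tangent vector fields. -/
noncomputable def tv (c : Fin (n + 1)) (dg : A → ℕ)
    (D : A → (Fin (n + 1) →₀ ℕ) → Derivation ℤ K K)
    (x : Fin (n + 1) → K) (t : Ti n A) : Fin (n + 1) → K :=
  if t.2.2 < dg t.1 then
    x c • Ev D x t.1 (sM c (dg t.1) t.2.1 (t.2.2 + 1)) -
      x t.2.1 • Ev D x t.1 (sM c (dg t.1) t.2.1 t.2.2) else 0

/-- The position vector and the tangent vector fields. -/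
noncomputable def wv (c : Fin (n + 1)) (dg : A → ℕ)
    (D : A → (Fin (n + 1) →₀ ℕ) → Derivation ℤ K K)
    (x : Fin (n + 1) → K) : Option (Ti n A) → Fin (n + 1) → K
  | none => x
  | some t => tv c dg D x t

/-- The derivations are dual to the coefficients of the monomials in two variables. -/
def Dual (c : Fin (n + 1)) (F : A → MvPolynomial (Fin (n + 1)) K) (dg : A → ℕ)
    (D : A → (Fin (n + 1) →₀ ℕ) → Derivation ℤ K K) : Prop :=
  ∀ (a b : A) (I J : Fin (n + 1) →₀ ℕ), I ∈ St c (dg a) → J.degree = dg b →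
    (a = b → I = J → D a I ((F b).coeff J) = 1) ∧
    ((a ≠ b ∨ I ≠ J) → D a I ((F b).coeff J) = 0)

section

variable {c : Fin (n + 1)} {F : A → MvPolynomial (Fin (n + 1)) K} {dg : A → ℕ}
  {D : A → (Fin (n + 1) →₀ ℕ) → Derivation ℤ K K}

theorem dF_Ev [DecidableEq A] (hF : ∀ a, (F a).IsHomogeneous (dg a)) (hD : Dual c F dg D)
    (x : Fin (n + 1) → K) {a b : A} {I : Fin (n + 1) →₀ ℕ} (hI : I ∈ St c (dg a)) :
    dF (F b) x (Ev D x a I) = D a I (eval x (F b)) - if a = b then mon x I else 0 := by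
  have h1 := chainM (D a I) x (F b)
  have h2 : ∑ u ∈ (F b).support, D a I ((F b).coeff u) * mon x u =
      if a = b then mon x I else 0 := by
    have hs : ∀ u ∈ (F b).support, u.degree = dg b := fun u hu => deg_of_mem (hF b) hu
    split_ifs with hab
    · subst hab
      rw [Finset.sum_eq_single I]
      · rw [(hD a a I I hI (deg_St hI)).1 rfl rfl, one_mul]
      · intro u hu hne
        rw [(hD a a I u hI (hs u hu)).2 (Or.inr hne.symm), zero_mul]
      · intro h
        exfalso
        have := (hD a a I I hI (deg_St hI)).1 rfl rfl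
        rw [notMem_support_iff.1 h, map_zero] at this
        exact zero_ne_one this
    · refine Finset.sum_eq_zero fun u hu => ?_
      rw [(hD a b I u hI (hs u hu)).2 (Or.inl hab), zero_mul]
  rw [h2] at h1
  unfold dF Ev
  rw [h1]
  ring

theorem mon_sM (x : Fin (n + 1) → K) (c : Fin (n + 1)) (d : ℕ) (i : Fin (n + 1)) (j : ℕ) :
    mon x (sM c d i j) = x c ^ (d - j) * x i ^ j := by
  unfold sM
  rw [mon_add, mon_single, mon_single]

theorem mon_step (x : Fin (n + 1) → K) (c : Fin (n + 1)) {d : ℕ} (i : Fin (n + 1)) {j : ℕ}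
    (hj : j < d) : x c * mon x (sM c d i (j + 1)) = x i * mon x (sM c d i j) := by
  rw [mon_sM, mon_sM]
  have h1 : d - j = d - (j + 1) + 1 := by omega
  rw [h1, pow_succ, pow_succ]
  ring

theorem dF_tv (hF : ∀ a, (F a).IsHomogeneous (dg a)) (hD : Dual c F dg D)
    (x : Fin (n + 1) → K) (b : A) (t : Ti n A) (ht : t.2.2 < dg t.1) :
    dF (F b) x (tv c dg D x t) =
      x c * D t.1 (sM c (dg t.1) t.2.1 (t.2.2 + 1)) (eval x (F b)) -
      x t.2.1 * D t.1 (sM c (dg t.1) t.2.1 t.2.2) (eval x (F b)) := by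
  classical
  rw [tv, if_pos ht, dF_sub, dF_smul, dF_smul, dF_Ev hF hD x (sM_mem (by omega)),
    dF_Ev hF hD x (sM_mem (by omega))]
  have h1 := mon_step x c t.2.1 ht
  split_ifs
  · linear_combination -h1
  · ring

/-- The derivatives, modulo the tangent vectors. -/
theorem Ev_mod (dg : A → ℕ) (D : A → (Fin (n + 1) →₀ ℕ) → Derivation ℤ K K)
    (x : Fin (n + 1) → K) (hc : x c ≠ 0) (a : A) {J : Fin (n + 1) →₀ ℕ}
    (hJ : J ∈ St c (dg a)) :
    Ev D x a J - (mon x J / x c ^ dg a) • Ev D x a (Finsupp.single c (dg a)) ∈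
      Submodule.span K (Set.range (wv c dg D x)) := by
  obtain ⟨W, hW⟩ : ∃ W, W = Submodule.span K (Set.range (wv c dg D x)) := ⟨_, rfl⟩
  have hgW : ∀ o, wv c dg D x o ∈ W := fun o => hW ▸ Submodule.subset_span ⟨o, rfl⟩
  obtain ⟨i, j, hj, rfl⟩ := hJ
  rw [← hW]
  induction j with
  | zero =>
    rw [sM_zero, mon_single, div_self (pow_ne_zero _ hc), one_smul, sub_self]
    exact zero_mem _
  | succ j ih =>
    have h1 := ih (by omega)
    have h2 := hgW (some (a, i, j))
    simp only [wv, tv] at h2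
    rw [if_pos (by omega)] at h2
    have h3 := mon_step x c i (d := dg a) (j := j) (by omega)
    have h4 : Ev D x a (sM c (dg a) i (j + 1)) - (mon x (sM c (dg a) i (j + 1)) / x c ^ dg a) •
        Ev D x a (Finsupp.single c (dg a)) =
        (x c)⁻¹ • (x c • Ev D x a (sM c (dg a) i (j + 1)) - x i • Ev D x a (sM c (dg a) i j)) +
        (x i / x c) • (Ev D x a (sM c (dg a) i j) - (mon x (sM c (dg a) i j) / x c ^ dg a) •
          Ev D x a (Finsupp.single c (dg a))) := by
      have h5 : mon x (sM c (dg a) i (j + 1)) = x i * mon x (sM c (dg a) i j) / x c := by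
        rw [← h3]
        field_simp
      rw [h5]
      funext l
      simp only [Pi.add_apply, Pi.sub_apply, Pi.smul_apply, smul_eq_mul]
      field_simp
      ring
    rw [h4]
    exact add_mem (Submodule.smul_mem _ _ h2) (Submodule.smul_mem _ _ h1)

/-- The rows: the tangent vector fields and the derivatives with the exponents `I`. -/
noncomputable def vv (c : Fin (n + 1)) (dg : A → ℕ)
    (D : A → (Fin (n + 1) →₀ ℕ) → Derivation ℤ K K)
    (x : Fin (n + 1) → K) (I : A → Fin (n + 1) →₀ ℕ) : Option (Ti n A) ⊕ A → Fin (n + 1) → K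
  | Sum.inl o => wv c dg D x o
  | Sum.inr a => Ev D x a (I a)

/-- The degrees of the rows. -/
def rd {n : ℕ} {A : Type} : Option (Ti n A) ⊕ A → ℕ
  | Sum.inl none => 1
  | Sum.inl (some _) => 2
  | Sum.inr _ => 1

theorem vv_scale (c : Fin (n + 1)) (dg : A → ℕ)
    (D : A → (Fin (n + 1) →₀ ℕ) → Derivation ℤ K K)
    (x : Fin (n + 1) → K) (lam : K) (I : A → Fin (n + 1) →₀ ℕ) :
    ∃ s : Option (Ti n A) ⊕ A → K, s (Sum.inl none) = 0 ∧ ∀ i, vv c dg D (lam • x) I i =
      lam ^ rd i • vv c dg D x I i + s i • x := by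
  have hE : ∀ a J, Ev D (lam • x) a J = lam • Ev D x a J + D a J lam • x := by
    intro a J
    funext l
    simp only [Ev, Pi.smul_apply, Pi.add_apply, smul_eq_mul]
    rw [(D a J).leibniz]
    simp only [smul_eq_mul]
    ring
  refine ⟨fun i => match i with
    | Sum.inl none => 0
    | Sum.inl (some t) => if t.2.2 < dg t.1 then
        lam * (x c * D t.1 (sM c (dg t.1) t.2.1 (t.2.2 + 1)) lam -
          x t.2.1 * D t.1 (sM c (dg t.1) t.2.1 t.2.2) lam) else 0
    | Sum.inr a => D a (I a) lam, rfl, ?_⟩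
  rintro ((_ | t) | a)
  · simp [vv, wv, rd]
  · simp only [vv, wv, rd, tv]
    split_ifs
    · rw [hE, hE]
      funext l
      simp only [Pi.add_apply, Pi.sub_apply, Pi.smul_apply, smul_eq_mul]
      ring
    · simp
  · simp only [vv, rd, pow_one]
    exact hE a (I a)

end

end Pool.Agent.TH145.GD
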